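import Pool.Agent.Lib_MP_7f70a7_ins.Core

/-!
# Solvable groups whose rational subsets form a Boolean algebra are virtually abelian

`Rat G` is the smallest family of subsets of `G` which contains the finite subsets and is closed
under union, product and generated submonoid. If `G` is solvable and `Rat G` is closed under
complement, then `G` is finitely generated and virtually abelian. Finite generation is not
assumed.
-/

open scoped Pointwise

namespace Pool.Agent.Results.MP_7f70a7_al.AnySolvable

universe u

/-- Let `G` be a solvable group such that the complement of every rational subset of `G` is
rational. Then `G` is finitely generated and has an abelian normal subgroup of finite index. -/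
theorem result (G : Type u) [Group G] (hs : Group.IsSolvable G)
    (h : ∀ A ∈ Pool.Agent.RatIns.Rat G, Aᶜ ∈ Pool.Agent.RatIns.Rat G) :
    Group.FG G ∧
      ∃ N : Subgroup G, N.Normal ∧ N.FiniteIndex ∧ ∀ a ∈ N, ∀ b ∈ N, a * b = b * a :=
  Pool.Agent.RatIns.main hs h

end Pool.Agent.Results.MP_7f70a7_al.AnySolvable
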